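import Pool.Agent.U707.SL.Off
import Pool.Agent.TH717.GO.Hyb
import Pool.Agent.TH409.SH.Fin2

/-!
Rational curves of bounded degree over the algebraic closure, and hyperbolic varieties.
-/

set_option autoImplicit false

namespace Pool.Agent.U707.SL

open MvPolynomial Pool.Agent.R393.UH Pool.Agent.R393.UF Pool.Agent.Y377.ST
open Pool.Agent.H533R3.SL (Uniruled)
open Pool.Agent.H458.Sp (BrodyHyperbolic)
open Pool.Agent.TH717.GO (NoRatC noRat_all)

/-- A nonconstant rational curve in `X : F = 0`, given by polynomials of degree at most `D` over the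
algebraic closure of `K`, passes through the point with the homogeneous coordinates `v`. -/
def OnCurve {K : Type} [Field K] {n : ℕ} {ι : Type} (D : ℕ)
    (F : ι → MvPolynomial (Fin (n + 1)) K) (v : Fin (n + 1) → K) : Prop :=
  ∃ p : Fin (n + 1) → Polynomial (AlgebraicClosure K),
    (∀ i, (p i).natDegree ≤ D) ∧ (∀ i, aeval p (F i) = 0) ∧
    (∀ j, (p j).eval 1 = algebraMap K (AlgebraicClosure K) (v j)) ∧
    ∃ i j, p i * Polynomial.C ((p j).eval 1) ≠ p j * Polynomial.C ((p i).eval 1)

theorem onCurve_of_E {K : Type} [Field K] {n : ℕ} {ι : Type} {D : ℕ}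
    {F : ι → MvPolynomial (Fin (n + 1)) K} {v : Fin (n + 1) → K} (h : OnRatE D F v) :
    OnCurve D F v := by
  obtain ⟨M, i1, i2, p, h1, h2, h3, h4⟩ := h
  obtain ⟨Ω, iΩ, α, β, hαβ⟩ := amalg (algebraMap K (AlgebraicClosure K)) (algebraMap K M)
    (fun a => by rw [map_eq_zero, map_eq_zero])
  obtain ⟨p', k1, k2, k3, k4⟩ := spec_gen α (algebraMap K (AlgebraicClosure K)) F
    (fun j => (p j).map β) (fun i => by
      have h5 := congrArg (Polynomial.mapRingHom β) (h2 i)
      rw [map_zero, aeval_def, hom_eval₂] at h5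
      rw [← h5]
      congr 1
      refine RingHom.ext fun a => ?_
      change Polynomial.C (α _) = Polynomial.map β (Polynomial.C _)
      rw [Polynomial.map_C, hαβ]) (by
      obtain ⟨i0, j0, h5⟩ := h4
      refine ⟨i0, j0, fun h6 => h5 ?_⟩
      apply Polynomial.map_injective β β.injective
      rw [Polynomial.map_mul, Polynomial.map_mul, Polynomial.map_C, Polynomial.map_C,
        ← eval_one_map' β (p j0), ← eval_one_map' β (p i0)]
      exact h6)
  refine ⟨p', fun i => (k1 i).trans (Polynomial.natDegree_map_le.trans (h1 i)), fun i => ?_,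
    fun j => k3 j _ ?_, k4⟩
  · have h5 := k2 i
    rw [aeval_def]
    exact h5
  · rw [eval_one_map', h3, ← hαβ]

/-- The points with the homogeneous coordinates `x(h)`, `x(h) ≠ 0`. -/
def famPts {L H : Type} [Field L] {n : ℕ} (x : H → Fin (n + 1) → L) :
    Set (Projectivization L (Fin (n + 1) → L)) :=
  {P | ∃ (h : H) (h0 : x h ≠ 0), P = Projectivization.mk L (x h) h0}

/-- The points with the homogeneous coordinates `x(h)`, `x(h) ≠ 0`, which are on no nonconstant
rational curve in `X : F = 0` of degree at most `D` (`OnCurve`). -/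
def famPtsOff {K H ι : Type} [Field K] {n : ℕ} (D : ℕ) (F : ι → MvPolynomial (Fin (n + 1)) K)
    (x : H → Fin (n + 1) → K) : Set (Projectivization K (Fin (n + 1) → K)) :=
  {P | ∃ (h : H) (h0 : x h ≠ 0), ¬ OnCurve D F (x h) ∧ P = Projectivization.mk K (x h) h0}

theorem uniform_off {K : Type} [Field K] [CharZero K] {n d : ℕ} {ι : Type}
    (F : ι → MvPolynomial (Fin (n + 1)) K) (hF : ∀ i, ∃ c, c ≤ d ∧ (F i).IsHomogeneous c)
    (s r e : ℕ) (H : Type) [Group H] (x : H → Fin (n + 1) → K)
    (hx : IterVec s r e x) (hX : ∀ h i, aeval (x h) (F i) = 0) :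
    (famPtsOff (TT n d s r e) F x).encard ≤ TT n d s r e := by
  refine (Set.encard_le_encard ?_).trans (genPts F hF s r e H x hx hX)
  rintro P ⟨h, h0, h1, h2⟩
  exact ⟨h, h0, fun h3 => h1 (onCurve_of_E h3), h2⟩

/-- on a hyperbolic variety -/
theorem uniform_hyp {k : Type} [Field k] [NumberField k] (σ : k →+* ℂ) {n d : ℕ}
    (FF : Finset (MvPolynomial (Fin (n + 1)) k)) (hF : ∀ F ∈ FF, ∃ c, c ≤ d ∧ F.IsHomogeneous c)
    (hyp : BrodyHyperbolic ((MvPolynomial.map σ) '' (FF : Set (MvPolynomial (Fin (n + 1)) k))))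
    (s r e : ℕ) (L : Type) [Field L] [Algebra k L] (H : Type) [Group H] (x : H → Fin (n + 1) → L)
    (hx : IterVec s r e x) (hX : ∀ h, ∀ F ∈ FF, aeval (x h) F = 0) :
    (famPts x).encard ≤ TT n d s r e := by
  have hno : NoRatC σ (FF : Set (MvPolynomial (Fin (n + 1)) k)) := by
    intro q hq i j a b
    refine Pool.Agent.TH409.SH.no_curveC' _ ?_ hyp q ?_ i j a b
    · rintro _ ⟨F, hF', rfl⟩
      obtain ⟨e, -, he⟩ := hF F hF'
      exact ⟨e, he.map _⟩
    · rintro _ ⟨F, hF', rfl⟩
      rw [aeval_def, MvPolynomial.eval₂_map]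
      exact hq F hF'
  have : CharZero L := charZero_of_injective_algebraMap (algebraMap k L).injective
  refine (Set.encard_le_encard ?_).trans
    (genPts (d := d) (fun a : FF => map (algebraMap k L) (a : MvPolynomial (Fin (n + 1)) k))
    (fun i => by obtain ⟨e, he, hi⟩ := hF i i.2; exact ⟨e, he, hi.map _⟩) s r e H x hx
    (fun h i => by rw [aeval_map_algebraMap]; exact hX h i i.2))
  rintro P ⟨h, h0, h2⟩
  refine ⟨h, h0, ?_, h2⟩
  rintro ⟨M, i1, i2, p, k1, k2, k3, i0, j0, k4⟩
  let _ : Algebra k M := ((algebraMap L M).comp (algebraMap k L)).toAlgebra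
  have e1 : ∀ Q : MvPolynomial (Fin (n + 1)) k,
      (aeval p (map (algebraMap k L) Q) : Polynomial M) = aeval p Q := by
    intro Q
    rw [aeval_def, eval₂_map, aeval_def]
    rfl
  apply k4
  refine noRat_all σ _ hno (TT n d s r e + 1) M p (Finset.range (TT n d s r e + 1))
    (by rw [Finset.card_range]) (fun i => ?_) (fun F hF => by rw [← e1]; exact k2 ⟨F, hF⟩) ?_ i0 j0
  · intro s' hs
    rw [Finset.mem_range]
    exact Nat.lt_succ_of_le ((Polynomial.le_natDegree_of_mem_supp s' hs).trans (k1 i))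
  · rw [map_one]
    exact one_ne_zero

end Pool.Agent.U707.SL
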