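import Pool.Agent.R393.UH.PtsGen
import Pool.Agent.TH717.GO.Hyp
import Pool.Agent.Y377.ST.Conv

/-!
Points off one hypersurface and points off the rational curves of bounded degree.
-/

set_option autoImplicit false

namespace Pool.Agent.U707.SL

open MvPolynomial Pool.Agent.R393.UH Pool.Agent.Y377.ST
open Pool.Agent.H533R3.SL (Uniruled)
open Pool.Agent.TH717.GO (hyper_poly orb)

/-- On a variety which is not uniruled the rational curves of bounded degree lie in one proper
closed subset. -/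
theorem exists_off {k : Type} [Field k] {n : ℕ} (FF : Finset (MvPolynomial (Fin (n + 1)) k))
    (hFF : ∀ F ∈ FF, ∃ e, F.IsHomogeneous e)
    (hprime : (Ideal.span (FF : Set (MvPolynomial (Fin (n + 1)) k))).IsPrime)
    (hnu : ¬ Uniruled (Ideal.span (FF : Set (MvPolynomial (Fin (n + 1)) k)))) (D : ℕ) :
    ∃ G : MvPolynomial (Fin (n + 1)) k, (∃ c, G.IsHomogeneous c) ∧
      G ∉ Ideal.span (FF : Set (MvPolynomial (Fin (n + 1)) k)) ∧
      ∀ (L : Type) [Field L] [Algebra k L] (H : Type) (x : H → Fin (n + 1) → L),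
        ptsOff G x ⊆ offRat D (fun a : FF => map (algebraMap k L)
          (a : MvPolynomial (Fin (n + 1)) k)) x := by
  obtain ⟨G, hG1, hG2, hG3⟩ := hyper_poly FF hprime hnu hFF (D + 1)
  refine ⟨G, hG1, hG2, fun L _ _ H x => ?_⟩
  rintro P ⟨g, h0, hl, hP⟩
  refine ⟨g, h0, ?_, hP⟩
  rintro ⟨M, i1, i2, p, h1, h2, h3, i0, j0, h4⟩
  let _ : Algebra k M := ((algebraMap L M).comp (algebraMap k L)).toAlgebra
  have e1 : ∀ Q : MvPolynomial (Fin (n + 1)) k,
      (aeval p (map (algebraMap k L) Q) : Polynomial M) = aeval p Q := by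
    intro Q
    rw [aeval_def, eval₂_map, aeval_def]
    rfl
  apply h4
  refine hG3 M p (Finset.range (D + 1)) (by rw [Finset.card_range]) (fun i => ?_)
    (fun F hF => by rw [← e1]; exact h2 ⟨F, hF⟩) ?_ i0 j0
  · intro s hs
    rw [Finset.mem_range]
    exact Nat.lt_succ_of_le ((Polynomial.le_natDegree_of_mem_supp s hs).trans (h1 i))
  · have h7 : (fun j => (p j).eval 1) = fun j => algebraMap L M (x g j) := funext h3
    rw [h7]
    intro h8
    apply hl
    apply (algebraMap L M).injective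
    rw [map_zero, ← h8, aeval_def, aeval_def, hom_eval₂]
    rfl

/-- **One closed subset and one bound for all families of points given by iterated recurrences.** -/
theorem strong_iter {k : Type} [Field k] [CharZero k] {n d : ℕ}
    (FF : Finset (MvPolynomial (Fin (n + 1)) k))
    (hFF : ∀ F ∈ FF, ∃ e, e ≤ d ∧ F.IsHomogeneous e)
    (hprime : (Ideal.span (FF : Set (MvPolynomial (Fin (n + 1)) k))).IsPrime)
    (hnu : ¬ Uniruled (Ideal.span (FF : Set (MvPolynomial (Fin (n + 1)) k)))) (s r e : ℕ) :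
    ∃ G : MvPolynomial (Fin (n + 1)) k, (∃ c, G.IsHomogeneous c) ∧
      G ∉ Ideal.span (FF : Set (MvPolynomial (Fin (n + 1)) k)) ∧
      ∀ (L : Type) [Field L] [Algebra k L] (H : Type) [Group H] (x : H → Fin (n + 1) → L),
        IterVec s r e x → (∀ h, ∀ F ∈ FF, aeval (x h) F = 0) →
        (ptsOff G x).encard ≤ TT n d s r e := by
  obtain ⟨G, hG1, hG2, hG3⟩ := exists_off FF
    (fun F hF => by obtain ⟨c, -, hc⟩ := hFF F hF; exact ⟨c, hc⟩) hprime hnu (TT n d s r e)
  refine ⟨G, hG1, hG2, fun L _ _ H _ x hx hX => ?_⟩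
  have : CharZero L := charZero_of_injective_algebraMap (algebraMap k L).injective
  refine (Set.encard_le_encard (hG3 L H x)).trans ?_
  exact genPts (d := d) (fun a : FF => map (algebraMap k L) (a : MvPolynomial (Fin (n + 1)) k))
    (fun i => by obtain ⟨e, he, hi⟩ := hFF i i.2; exact ⟨e, he, hi.map _⟩) s r e H x hx
    (fun h i => by rw [aeval_map_algebraMap]; exact hX h i i.2)

/-- The same points. -/
theorem ptsOff_zpow {k L : Type} [Field k] [Field L] [Algebra k L] {n r : ℕ}
    (G : MvPolynomial (Fin (n + 1)) k) (M : Matrix (Fin (n + 1)) (Fin r) L)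
    (ρ : Multiplicative ℤ →* Matrix.GeneralLinearGroup (Fin r) L) (v : Fin r → L) :
    ptsOff G (orb M ρ v) = ptsOff G fun m : ℤ => M.mulVec
      ((((ρ (Multiplicative.ofAdd 1)) ^ m : Matrix.GeneralLinearGroup (Fin r) L) :
        Matrix (Fin r) (Fin r) L).mulVec v) := by
  have e1 : ∀ m : ℤ, orb M ρ v (Multiplicative.ofAdd m) = M.mulVec
      ((((ρ (Multiplicative.ofAdd 1)) ^ m : Matrix.GeneralLinearGroup (Fin r) L) :
        Matrix (Fin r) (Fin r) L).mulVec v) := by
    intro m
    unfold orb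
    have h1 : (Multiplicative.ofAdd m : Multiplicative ℤ) = (Multiplicative.ofAdd 1) ^ m := by
      rw [← ofAdd_zsmul, smul_eq_mul, mul_one]
    rw [h1, map_zpow]
  have e2 : (fun m : ℤ => M.mulVec
      ((((ρ (Multiplicative.ofAdd 1)) ^ m : Matrix.GeneralLinearGroup (Fin r) L) :
        Matrix (Fin r) (Fin r) L).mulVec v)) = fun m => orb M ρ v (Multiplicative.ofAdd m) :=
    funext fun m => (e1 m).symm
  rw [e2]
  ext P
  constructor
  · rintro ⟨h, h0, h1, h2⟩
    exact ⟨Multiplicative.toAdd h, h0, h1, h2⟩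
  · rintro ⟨m, h0, h1, h2⟩
    exact ⟨Multiplicative.ofAdd m, h0, h1, h2⟩

/-- points of the sequences `M A ^ m v` -/
theorem iterVec_zpow {L : Type} [Field L] {n r : ℕ} (M : Matrix (Fin (n + 1)) (Fin r) L)
    (A : Matrix.GeneralLinearGroup (Fin r) L) (v : Fin r → L) :
    IterVec 1 r 1 fun m : Multiplicative ℤ => M.mulVec
      (((A ^ (Multiplicative.toAdd m) : Matrix.GeneralLinearGroup (Fin r) L) :
        Matrix (Fin r) (Fin r) L).mulVec v) := by
  have h1 := iterVec_orb M (zpowersHom _ A) v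
  exact h1

end Pool.Agent.U707.SL
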